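import Mathlib
import Pool.Agent.helper58.TFe

/-!
# Triangle-free almost dense graphs with the random-like number of 4-cycles

We disprove the question of MP_e47ff0_co in the strongest way: there are `p(n) = n^{-o(1)}` and
graphs `G_n` on `n` vertices satisfying conditions 1-3 all of which are triangle-free.

Construction.  Fix `k` and `q`.  A vertex is a triple `(a, c, s)` with `a : [k] x [q] -> {0,1}`,
`c : [k] -> [q]`, `s : [k] -> {0,1}`: a point `a` of the cube `{0,1}^{kq}` together with the
subcube `C = {a' : a'(i, c i) = s i for all i}` of codimension `k`.  Two vertices are adjacent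
if the point of each lies in the subcube of the other one and the two subcubes are disjoint
(i.e. `c i = c' i`, `s i <> s' i` for some `i`).  In a triangle the point of the third vertex
would lie in the two disjoint subcubes of the first two.  With `k = 2^m`, `q = m 2^m` every
normalised homomorphism density of this graph is at most `1 + o(1)` as `m -> oo`.  Balanced
blow-ups and a diagonal argument give the sequence.
-/

namespace Pool.Agent.Results.MP_e47ff0_co.TriangleFree

open Filter Topology

/-- `s_p(F, G)`: the number of labelled copies of `F` in `G` (injective maps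
`V(F) -> V(G)` sending edges to edges) divided by `n (n-1) ... (n-|F|+1) p^{e(F)}`,
for a graph `F` on `Fin k` and a graph `G` on `Fin n`. -/
noncomputable def normalizedCopies (p : ℝ) {k n : ℕ} (F : SimpleGraph (Fin k))
    (G : SimpleGraph (Fin n)) : ℝ :=
  (G.labelledCopyCount F : ℝ) / ((n.descFactorial k : ℝ) * p ^ (Nat.card F.edgeSet))

/-- There are `p(n) = n^{-o(1)}` in `(0,1]` and graphs `G n` on `n` vertices with
(1) `e(G n) = p(n) * (n choose 2)`, (2) `s_p(C_4, G n) -> 1`, (3) `sup_n s_p(F, G n) < oo` for
every graph `F`, such that every `G n` is triangle-free, hence `s_p(K_3, G n)` (which is `0` for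
all `n`) does not tend to `1`. -/
theorem result :
    ∃ (p : ℕ → ℝ) (G : (n : ℕ) → SimpleGraph (Fin n)),
      (∀ n, 0 < p n ∧ p n ≤ 1) ∧
      Tendsto (fun n : ℕ => Real.log (1 / p n) / Real.log n) atTop (𝓝 0) ∧
      (∀ n, (Nat.card (G n).edgeSet : ℝ) = p n * (n.choose 2 : ℝ)) ∧
      Tendsto (fun n => normalizedCopies (p n) (SimpleGraph.cycleGraph 4) (G n)) atTop (𝓝 1) ∧
      (∀ (k : ℕ) (F : SimpleGraph (Fin k)),
        BddAbove (Set.range fun n => normalizedCopies (p n) F (G n))) ∧
      (∀ n, (G n).CliqueFree 3) ∧
      ¬ Tendsto (fun n => normalizedCopies (p n) (⊤ : SimpleGraph (Fin 3)) (G n)) atTop (𝓝 1) := by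
  obtain ⟨p, G, h1, h2, h3, h4, h5, h6, h7⟩ := Pool.Agent.helper58.TF.main
  refine ⟨p, G, h1, h2, h3, h4, h5, h6, ?_⟩
  intro h
  have h8 : Tendsto (fun n => normalizedCopies (p n) (⊤ : SimpleGraph (Fin 3)) (G n)) atTop
      (𝓝 0) := by
    have : (fun n => normalizedCopies (p n) (⊤ : SimpleGraph (Fin 3)) (G n)) = fun _ => (0 : ℝ) :=
      funext h7
    rw [this]
    exact tendsto_const_nhds
  exact zero_ne_one (tendsto_nhds_unique h8 h)

end Pool.Agent.Results.MP_e47ff0_co.TriangleFree
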